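import Pool.Agent.H84.SM.Targets2
import Pool.Agent.H27.LV.Curve

/-! SM3: the degree of the solutions of a connection. -/

set_option autoImplicit false

namespace Pool.Agent.H86.SM

open MvPolynomial SC Pool.Agent.H27.LV Pool.Agent.H84.SM

theorem sm3_ndvd {k : Type} [Field k] {G A : MvPolynomial (Fin 3) k} {d α : ℕ}
    (hG : G.IsHomogeneous d) (hG0 : G ≠ 0) (hA : A.IsHomogeneous α) (hA0 : A ≠ 0) (h : α < d) :
    ¬ G ∣ A := by
  rintro ⟨B, rfl⟩
  have hB0 : B ≠ 0 := right_ne_zero_of_mul hA0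
  have h1 := MvPolynomial.totalDegree_mul_of_isDomain hG0 hB0
  rw [hG.totalDegree hG0, hA.totalDegree hA0] at h1
  omega

theorem sm3_lin {k : Type} [Field k] {K : Type} [Field K] [Algebra k K] (x : Fin 3 → K)
    (h : ¬ NL k x) : ∃ Φ : MvPolynomial (Fin 3) k, Φ ≠ 0 ∧ Φ.IsHomogeneous 1 ∧ aeval x Φ = 0 := by
  unfold NL at h
  push Not at h
  obtain ⟨a, ha, h⟩ := h
  refine ⟨∑ i, C (a i) * X i, ?_, ?_, ?_⟩
  · intro h0
    apply ha
    funext i
    have h1 := congrArg (fun P => eval (fun j => if j = i then (1 : k) else 0) P) h0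
    simpa using h1
  · refine MvPolynomial.IsHomogeneous.sum _ _ _ fun i _ => ?_
    simpa using (isHomogeneous_C (Fin 3) (a i)).mul (isHomogeneous_X k i)
  · rw [map_sum]
    simpa using h

theorem sm3_cen {k K : Type} [Field k] [Field K] [Algebra k K] (v : DV k K) (x : Fin 3 → K)
    (a' : Fin 3 → k) (z0 : k) (hz0 : z0 ≠ 0) (h : Cen v x (z0 • a')) : Cen v x a' := by
  obtain ⟨z, hz, hg⟩ := h
  have hz0' : algebraMap k K z0 ≠ 0 := by
    rwa [Ne, map_eq_zero]
  refine ⟨algebraMap k K z0⁻¹ * z, mul_ne_zero (by rw [map_inv₀]; exact inv_ne_zero hz0') hz, ?_⟩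
  intro i
  have e : algebraMap k K z0⁻¹ * z * x i - algebraMap k K (a' i) =
      algebraMap k K z0⁻¹ * (z * x i - algebraMap k K ((z0 • a') i)) := by
    rw [Pi.smul_apply, smul_eq_mul, map_mul, map_inv₀]
    field_simp
  rw [e]
  rcases hg i with h1 | h1
  · left
    rw [h1, mul_zero]
  · by_cases h2 : z * x i - algebraMap k K ((z0 • a') i) = 0
    · left
      rw [h2, mul_zero]
    · right
      rw [v.ord_mul _ _ (by rw [map_inv₀]; exact inv_ne_zero hz0') h2, v.ord_base, zero_add]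
      exact h1

theorem pf_SM3 (hLCA : T_LCA) (hLCB : T_LCB) (hCEN : T_CEN) (hFNS : T_FNS) : T_SM3 := by
  classical
  intro k _ _ _ G d α A b hd hS hirr hC hα
  have hG0 : G ≠ 0 := hirr.ne_zero
  obtain ⟨s0, hs0, hs1⟩ := hFNS k G A d α hS.1 hC.hA hirr
    (sm3_ndvd hS.1 hG0 hC.hA hC.ne hα)
  -- the constants of the finitely many points
  have hex : ∀ a' : Fin 3 → k, ∃ Ca : ℕ, a' ∈ s0 → eval a' A = 0 →
      ∀ (K : Type) [Field K] [Algebra k K] [Algebra.EssFiniteType k K],
      Algebra.trdeg k K = 1 → ∀ (D : Derivation k K K), D ≠ 0 → ∀ (x : Fin 3 → K) (v : DV k K),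
      (∃ j, x j = 1) → Prim k x → NL k x → aeval x G ≠ 0 → aeval x A ≠ 0 → CEq D A b x →
      Cen v x a' → nord v x d G ≤ nord v x α A ∨ nord v x d G ≤ Ca := by
    intro a'
    by_cases h : a' ∈ s0 ∧ eval a' A = 0
    · obtain ⟨Ca, hCa⟩ := hLCA k G d α A b hd hS hirr hC hα a' (hs0 a' h.1).1 (hs0 a' h.1).2 h.2
      exact ⟨Ca, fun _ _ => hCa⟩
    · exact ⟨0, fun h1 h2 => absurd ⟨h1, h2⟩ h⟩
  choose Cf hCf using hex
  obtain ⟨C0, hC0⟩ : ∃ C0 : ℕ, C0 = 1 + ∑ a' ∈ s0, Cf a' := ⟨_, rfl⟩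
  have hC1 : 1 ≤ C0 := by omega
  have hCle : ∀ a' ∈ s0, Cf a' ≤ C0 := by
    intro a' ha'
    have := Finset.single_le_sum (f := Cf) (fun _ _ => Nat.zero_le _) ha'
    omega
  refine ⟨C0 + α, ?_⟩
  intro K _ _ _ htr D hD x S hPr hcrv heq
  by_cases hA0 : aeval x A = 0
  · exact Or.inl ⟨α, A, by omega, hC.ne, hC.hA, hA0⟩
  by_cases hNL : NL k x
  swap
  · obtain ⟨Φ, h1, h2, h3⟩ := sm3_lin x hNL
    exact Or.inl ⟨1, Φ, by omega, h1, h2, h3⟩
  right
  -- local inequality
  have hloc : ∀ v : DV k K, 0 ≤ nord v x α A ∧ nord v x d G ≤ nord v x α A + C0 := by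
    intro v
    obtain ⟨⟨s, hs, hcen⟩, hcc⟩ := hCEN k K htr v x hcrv.one
    obtain ⟨z, hz, hzx⟩ := id hcen
    obtain ⟨-, hP⟩ := hcc s hs z hz hzx
    obtain ⟨-, g1, g2, g3⟩ := hP d G hS.1 hcrv.ne
    obtain ⟨-, a1, a2, a3⟩ := hP α A hC.hA hA0
    refine ⟨a1, ?_⟩
    by_cases hsG : eval s G = 0
    · by_cases hsA : eval s A = 0
      · obtain ⟨a', ha', z0, hz0, hsz⟩ := hs1 s hs hsG hsA
        have ha'A : eval a' A = 0 := by
          have h1 : eval (z0 • a') A = z0 ^ α * eval a' A := by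
            rw [MvPolynomial.eval_eq', MvPolynomial.eval_eq', Finset.mul_sum]
            refine Finset.sum_congr rfl fun m hm => ?_
            have hm' : ∑ i, m i = α := by
              have h2 := hC.hA (MvPolynomial.mem_support_iff.1 hm)
              rw [Finsupp.weight_apply, Finsupp.sum_fintype _ _ (by simp)] at h2
              simpa using h2
            simp only [Pi.smul_apply, smul_eq_mul, mul_pow, Finset.prod_mul_distrib,
              Finset.prod_pow_eq_pow_sum, hm']
            ring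
          rw [← hsz, hsA] at h1
          rcases mul_eq_zero.1 h1.symm with h2 | h2
          · exact absurd h2 (pow_ne_zero _ hz0)
          · exact h2
        have hcen' : Cen v x a' := sm3_cen v x a' z0 hz0 (by rw [← hsz]; exact hcen)
        have h3 := hCf a' ha' ha'A K htr D hD x v hcrv.one hPr hNL hcrv.ne hA0 heq hcen'
        have h4 := hCle a' ha'
        have h5 : (Cf a' : ℤ) ≤ C0 := by exact_mod_cast h4
        rcases h3 with h3 | h3
        · have : (0 : ℤ) ≤ C0 := Int.natCast_nonneg _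
          omega
        · omega
      · have h3 := hLCB k G d α A b hd hS hirr hC hα s hs hsG hsA K htr D hD x v hcrv.one
          hPr hNL hcrv.ne hA0 heq hcen
        have : (1 : ℤ) ≤ C0 := by exact_mod_cast hC1
        omega
    · have h3 := g2 hsG
      have : (0 : ℤ) ≤ C0 := Int.natCast_nonneg _
      omega
  -- global sums
  obtain ⟨fG, sG⟩ := pfm k K htr (aeval x G)
  obtain ⟨fA, sA⟩ := pfm k K htr (aeval x A)
  have fP := pfi k K htr (Fin 3) x
  obtain ⟨T, hT⟩ : ∃ T : Finset (DV k K), T = (fG.union (fA.union fP)).toFinset ∪ S := ⟨_, rfl⟩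
  have hT' : ∀ v, v ∉ T → v.ord (aeval x G) = 0 ∧ v.ord (aeval x A) = 0 ∧ poleOrder v x = 0 := by
    intro v hv
    rw [hT, Finset.mem_union, Set.Finite.mem_toFinset] at hv
    push Not at hv
    obtain ⟨hv, -⟩ := hv
    simp only [Set.mem_union, Set.mem_ofPred_eq, not_or, not_not] at hv
    exact ⟨hv.1, hv.2.1, hv.2.2⟩
  have eG : ∑ v ∈ T, v.ord (aeval x G) = 0 := by
    rw [← sG, finsum_eq_sum_of_support_subset]
    intro v hv
    by_contra hcon
    exact hv (hT' v hcon).1
  have eA : ∑ v ∈ T, v.ord (aeval x A) = 0 := by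
    rw [← sA, finsum_eq_sum_of_support_subset]
    intro v hv
    by_contra hcon
    exact hv (hT' v hcon).2.1
  have eP : deg k x = ∑ v ∈ T, poleOrder v x := by
    unfold deg
    rw [finsum_eq_sum_of_support_subset]
    intro v hv
    by_contra hcon
    exact hv (hT' v hcon).2.2
  have hsum : ∑ v ∈ T, nord v x d G ≤ ∑ v ∈ T, (nord v x α A + if v ∈ S then (C0 : ℤ) else 0) := by
    refine Finset.sum_le_sum fun v _ => ?_
    split_ifs with hv
    · exact (hloc v).2
    · have h6 := hcrv.off v hv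
      have h7 : nord v x d G = 0 := by
        unfold nord
        rw [h6]
        ring
      rw [h7, add_zero]
      exact (hloc v).1
  have e1 : ∑ v ∈ T, nord v x d G = d * (deg k x : ℤ) := by
    unfold nord
    rw [Finset.sum_add_distrib, eG, eP, zero_add, ← Finset.mul_sum]
    push_cast
    rfl
  have e2 : ∑ v ∈ T, (nord v x α A + if v ∈ S then (C0 : ℤ) else 0) =
      α * (deg k x : ℤ) + C0 * S.card := by
    unfold nord
    rw [Finset.sum_add_distrib, Finset.sum_add_distrib, eA, eP, zero_add, ← Finset.mul_sum]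
    have h8 : T.filter (fun v => v ∈ S) = S := by
      ext v
      rw [Finset.mem_filter]
      refine ⟨fun h => h.2, fun h => ⟨?_, h⟩⟩
      rw [hT]
      exact Finset.mem_union_right _ h
    have h9 : ∑ v ∈ T, (if v ∈ S then (C0 : ℤ) else 0) = C0 * S.card := by
      rw [← Finset.sum_filter, h8, Finset.sum_const, nsmul_eq_mul]
      ring
    rw [h9]
    push_cast
    rfl
  rw [e1, e2] at hsum
  have h10 : ((α : ℤ) + 1) * deg k x ≤ d * deg k x := by
    have : (α : ℤ) + 1 ≤ d := by exact_mod_cast hα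
    exact mul_le_mul_of_nonneg_right this (Int.natCast_nonneg _)
  have h11 : (deg k x : ℤ) ≤ C0 * S.card := by nlinarith
  have h12 : deg k x ≤ C0 * S.card := by exact_mod_cast h11
  refine h12.trans ?_
  exact Nat.mul_le_mul_right _ (by omega)

end Pool.Agent.H86.SM
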